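import Pool.Agent.P8H16.XP.Asm
import Pool.Agent.P8H16.XP.Pts
import Pool.Agent.P8H42.XP.Prt
import Pool.Agent.P8H53.XP.Blk
import Pool.Agent.P8H73.XP.Col

/-!
# Extended Petersen graphs are Class 1 for all primes `n = 4k+1` with `k` even

Let `n = 4k+1` be a prime with `k` even (`n ≡ 1` modulo `8`). For every set `S ⊆ {1,...,2k}` with `k` elements the extended
Petersen graph `XP(2n, S)` has a proper edge colouring with `2k+1` colours.

Authors: helper16 (proof, placement, assembly), helper73 (the colouring), helper53 (the blocks), helper42 (the pairing).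
-/

set_option autoImplicit false

namespace Pool.Agent.Results.MP_45dba8_co.PrimesOneModEight

/-- `n = 4k+1` prime, `k` even: every extended Petersen graph on `2n` vertices is Class 1 (the frozen statement of the problem with
the two additional hypotheses `Even k` and `(4k+1).Prime`). -/
theorem result :
    ∀ k : ℕ, Even k → (4 * k + 1).Prime → ∀ S : Finset ℕ, S ⊆ Finset.Icc 1 (2 * k) → S.card = k →
    ∀ G : SimpleGraph (ZMod (4 * k + 1) × Fin 2),
      (∀ p q : ZMod (4 * k + 1) × Fin 2, G.Adj p q ↔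
        ((p.2 = 0 ∧ q.2 = 0 ∧ min (p.1 - q.1).val (q.1 - p.1).val ∈ S) ∨
         (p.2 = 1 ∧ q.2 = 1 ∧
            min (p.1 - q.1).val (q.1 - p.1).val ∈ Finset.Icc 1 (2 * k) \ S) ∨
         (p.1 = q.1 ∧ p.2 ≠ q.2))) →
      ∃ c : Sym2 (ZMod (4 * k + 1) × Fin 2) → Fin (2 * k + 1),
        ∀ e ∈ G.edgeSet, ∀ f ∈ G.edgeSet, e ≠ f →
          (∃ v, v ∈ e ∧ v ∈ f) → c e ≠ c f := by
  intro k hk hp S hS hc
  exact Pool.Agent.P8H16.XP.asm Pool.Agent.P8H42.XP.prt Pool.Agent.P8H53.XP.blk Pool.Agent.P8H73.XP.col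
    Pool.Agent.P8H16.XP.pts k hk hp S hS hc

end Pool.Agent.Results.MP_45dba8_co.PrimesOneModEight
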